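import Pool.Agent.Helper73.HL.KF

/-!
# Row IDB: the lift of the integral form
-/

namespace Pool.Agent.Helper73.HL

open Finset MvPolynomial
open Pool.Agent.Helper7.HL
open Pool.Agent.Helper32.HG

theorem idb_wt {K : Type} [Field K] [CharZero K] {n : ℕ} (ω : ℕ → K) (s : Finset (Fin n))
    (e : Fin n → ℕ) : ∀ d : Fin n →₀ ℕ, coeff d (∏ v ∈ s, gh n ω (e v)) ≠ 0 →
      wtd d = ∑ v ∈ s, e v := by
  induction s using Finset.induction_on with
  | empty =>
    intro d hd
    rw [prod_empty, coeff_one] at hd
    rw [sum_empty]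
    by_cases h : 0 = d
    · rw [← h, wtd_zero]
    · rw [if_neg h] at hd
      exact absurd rfl hd
  | insert a s ha ih =>
    intro d hd
    rw [prod_insert ha, coeff_mul] at hd
    obtain ⟨x, hx, hne⟩ := exists_ne_zero_of_sum_ne_zero hd
    rw [HasAntidiagonal.mem_antidiagonal] at hx
    have h1 := ih _ (right_ne_zero_of_mul hne)
    have h2 := left_ne_zero_of_mul hne
    rw [coeff_gh] at h2
    have h3 : wtd x.1 = e a := by
      by_contra h
      rw [if_neg h] at h2
      exact h2 rfl
    rw [← hx, wtd_add, h1, h3, sum_insert ha]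

theorem idb_head {n : ℕ} {cs : List ℕ} (h : Dec cs) (hn : ∀ c ∈ cs, c ≤ n) : Dec (n :: cs) := by
  unfold Dec at *
  rw [List.pairwise_cons]
  exact ⟨hn, h⟩

theorem st_IDB (hTQ : ST_TQ) (hG : ST_GTG) (hP : ST_PSI) : ST_IDB := by
  intro K _ _ n q t hqt cs hd hn hs hp
  have hq : GQ q := by
    intro a ha
    have := hqt a 0 (by omega)
    simpa using this
  have hom : ∀ j, 0 < j → om q t j ≠ 0 := by
    intro j hj
    unfold om
    apply div_ne_zero
    · have := hqt 0 j (by omega)
      simpa using this
    · exact hq j hj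
  obtain ⟨hm, hs2⟩ := hTQ K q t hq n cs (idb_head hd hn)
  rw [hs] at hs2
  have key : ∀ x ∈ spg q n (rowl n cs), ∃ f : MvPolynomial (Fin n) K, WtN n f ∧
      Psi n K f = ev K n (ptm t x) ∧ ∀ ν ∈ below n (rowl n cs), ∀ g : MvPolynomial (Fin n) K,
        WtN n g → Psi n K g = msym n K ν → Bf (om q t) g f = 0 := by
    intro x hx
    unfold spg at hx
    induction hx using Submodule.span_induction with
    | mem x h =>
      obtain ⟨ρ, h2, h3, h4⟩ := h
      rw [hs2] at h3
      refine ⟨∏ v, gh n (om q t) (ρ v), ?_, ?_, ?_⟩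
      · intro d hd
        rw [idb_wt _ _ _ d hd, h3]
      · rw [h4, kf_prod hG q t hq, map_prod]
        apply prod_congr rfl
        intro i _
        apply hP K q t hqt
        rw [← h3]
        exact single_le_sum (fun j _ => Nat.zero_le (ρ j)) (mem_univ i)
      · intro ν hν g _ hg
        rw [← coeff_Psi _ hom, hg, coeff_msym, if_neg]
        rintro ⟨σ, hσ⟩
        rw [mem_below] at hν
        obtain ⟨k1, k2, k3⟩ := hν
        have ha : Antitone ν := ((mem_parts ν).1 k1).1
        apply k3
        apply eq_of_partial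
        intro k hk
        apply le_antisymm (k2 k)
        obtain ⟨S, s1, s2⟩ := h2 (univ.filter fun i : Fin n => i.val < k)
        have hc : (univ.filter fun i : Fin n => i.val < k).card = k := by
          have : (univ.filter fun i : Fin n => i.val < k) =
              (univ : Finset (Fin k)).image (Fin.castLE hk) := by
            ext i
            rw [mem_filter, mem_image]
            constructor
            · rintro ⟨_, h⟩
              exact ⟨⟨i.val, h⟩, mem_univ _, Fin.ext rfl⟩
            · rintro ⟨j, _, rfl⟩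
              exact ⟨mem_univ _, j.isLt⟩
          rw [this, card_image_of_injective _ (Fin.castLE_injective hk), card_univ,
            Fintype.card_fin]
        rw [hc] at s1
        have h5 := top_sum ha σ S
        rw [s1, ← hσ] at h5
        have h6 : ((∑ i : Fin n with i.val < k, rowl n cs i : ℕ) : ℤ) ≤
            ((∑ v ∈ S, ρ v : ℕ) : ℤ) := by
          push_cast
          exact s2
        have h7 : ∑ i : Fin n with i.val < k, rowl n cs i ≤ ∑ v ∈ S, ρ v := by
          exact_mod_cast h6
        exact le_trans h7 h5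
    | zero =>
      refine ⟨0, WtN.zero, by simp, ?_⟩
      intro ν _ g _ _
      exact bf_zero_right _ _
    | add x y _ _ hx hy =>
      obtain ⟨f, f1, f2, f3⟩ := hx
      obtain ⟨f', f1', f2', f3'⟩ := hy
      refine ⟨f + f', f1.add f1', by rw [map_add, f2, f2', map_add, map_add], ?_⟩
      intro ν hν g hg hg2
      rw [bf_add_right, f3 ν hν g hg hg2, f3' ν hν g hg hg2, add_zero]
    | smul a x _ hx =>
      obtain ⟨f, f1, f2, f3⟩ := hx
      refine ⟨a • f, f1.smul a, by rw [map_smul, f2, map_smul, map_smul], ?_⟩
      intro ν hν g hg hg2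
      rw [bf_smul_right, f3 ν hν g hg hg2, mul_zero]
  exact key _ hm

end Pool.Agent.Helper73.HL
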