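import Pool.Agent.Helper7.HL.Stmts

/-!
# Row KF: the field version of the three facts
-/

namespace Pool.Agent.Helper73.HL

open Finset MvPolynomial
open Pool.Agent.Helper7.HL
open Pool.Agent.Helper32.HG

theorem kf_ind {K : Type} [Field K] (q : K) (k : ℕ) (μ : Fin k → ℕ) (p : Sy K → Prop)
    (h1 : ∀ ρ : Fin k → ℕ, ∑ i, ρ i = ∑ i, μ i → p (∏ i, gtt q (ρ i))) (h0 : p 0)
    (ha : ∀ x y, p x → p y → p (x + y)) (hs : ∀ (a : K) (x : Sy K), p x → p (C a * x)) :
    ∀ x ∈ spg q k μ, p x := by
  intro x hx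
  unfold spg at hx
  induction hx using Submodule.span_induction with
  | mem x h =>
    obtain ⟨ρ, _, h3, h4⟩ := h
    rw [h4]
    exact h1 ρ h3
  | zero => exact h0
  | add x y _ _ hx hy => exact ha x y hx hy
  | smul a x _ hx =>
    rw [smul_eq_C_mul]
    exact hs a x hx

theorem kf_dop_zero {K : Type} [Field K] (q t v : K) (N : ℕ) : Dop q t v N 0 = 0 := by
  unfold Dop
  simp

theorem kf_shf_C {K : Type} [Field K] (q : K) (k : ℕ) (a : K) (x : Sy K) :
    shf q k (C a * x) = C (C a) * shf q k x := by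
  have : (C a : Sy K) * x = a • x := (smul_eq_C_mul x a).symm
  rw [this, map_smul, Algebra.smul_def]
  congr 1

theorem kf_ptm_C {K : Type} [Field K] (t : K) (a : K) (x : Sy K) :
    ptm t (C a * x) = C a * ptm t x := by
  rw [map_mul]
  congr 1
  exact (ptm t).commutes a

theorem kf_ev_C {K : Type} [Field K] (N : ℕ) (a : K) (x : Sy K) :
    ev K N (C a * x) = C a * ev K N x := by
  rw [map_mul]
  congr 1
  exact (ev K N).commutes a

theorem kf_bop_zero {K : Type} [Field K] (q t : K) (k : ℕ) : Bop q t k 0 = 0 := by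
  unfold Bop Lf
  simp

theorem kf_bop_add (hLF : ST_LF) {K : Type} [Field K] (q t : K) (k : ℕ) (x y : Sy K) :
    Bop q t k (x + y) = Bop q t k x + Bop q t k y := by
  unfold Bop
  rw [map_add, mul_add, (hLF k (Sy K) (bs t k)).1]

theorem kf_bop_C (hLF : ST_LF) {K : Type} [Field K] (q t : K) (k : ℕ) (a : K) (x : Sy K) :
    Bop q t k (C a * x) = C a * Bop q t k x := by
  unfold Bop
  rw [kf_shf_C, mul_left_comm, (hLF k (Sy K) (bs t k)).2.1]

theorem kf_prod (hG : ST_GTG) {K : Type} [Field K] (q t : K) (hq : GQ q) (N : ℕ) {k : ℕ}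
    (ρ : Fin k → ℕ) : ev K N (ptm t (∏ i, gtt q (ρ i))) = ∏ i, gg q t N (ρ i) := by
  rw [map_prod, map_prod]
  apply prod_congr rfl
  intro i _
  exact hG K q t hq N (ρ i)

theorem kf_gg_hom {K : Type} [Field K] (q t : K) (N m : ℕ) : (gg q t N m).IsHomogeneous m := by
  unfold gg gw
  apply IsHomogeneous.sum
  intro d hd
  apply isHomogeneous_monomial
  rw [mem_piAntidiag] at hd
  rw [Finsupp.degree_eq_sum]
  exact hd.1

theorem kf_head {cs : List ℕ} (h : Dec cs) : Dec (cs.headD 0 :: cs) := by
  cases cs with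
  | nil => exact List.pairwise_singleton _ _
  | cons c cs =>
    unfold Dec at *
    rw [List.pairwise_cons]
    refine ⟨?_, h⟩
    intro b hb
    change b ≤ c
    rw [List.mem_cons] at hb
    rcases hb with rfl | hb
    · exact le_refl _
    · exact (List.pairwise_cons.1 h).1 b hb

theorem st_KF (hTQ : ST_TQ) (hK2 : ST_K2S) (hG : ST_GTG) (hGD : ST_GD) (hKD : ST_KD3)
    (hDC : ST_DC) (hLF : ST_LF) : ST_KF := by
  intro K _ q t hq
  refine ⟨?_, ?_, ?_⟩
  · intro k cs hd
    have hm := (hTQ K q t hq k cs hd).1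
    obtain ⟨-, d1, d2, -⟩ := hDC k K q t t
    have : ∀ x ∈ spg q k (rowl k cs), Dl k K * ev K k (ptm t (Bop q t k x)) =
        (∏ i : Fin k, X i) * Dop q t t k (ev K k (ptm t x)) := by
      apply kf_ind
      · intro ρ _
        rw [hK2 K q t hq k ρ, kf_prod hG q t hq]
      · rw [kf_bop_zero, map_zero, map_zero, kf_dop_zero, mul_zero, mul_zero]
      · intro x y hx hy
        rw [kf_bop_add hLF, map_add, map_add, mul_add, hx, hy, map_add, map_add, d1, mul_add]
      · intro a x hx
        rw [kf_bop_C hLF, kf_ptm_C, kf_ev_C, mul_left_comm, hx, kf_ptm_C, kf_ev_C, d2]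
        ring
    exact this _ hm
  · intro N cs hd hN hc
    have hm := (hTQ K q t hq (cs.headD 0) cs (kf_head hd)).1
    have hk : cs.headD 0 < N := by
      cases cs with
      | nil => exact hN
      | cons c cs => exact hc c (List.mem_cons_self)
    generalize cs.headD 0 = k at hm hk
    obtain ⟨-, d1, d2, -⟩ := hDC N K q t 1
    have : ∀ x ∈ spg q k (rowl k cs), Dop q t 1 N (ev K N (ptm t x)) = 0 := by
      apply kf_ind
      · intro ρ _
        rw [kf_prod hG q t hq]
        ext e
        have he : e = ex (fun i => e i) := (ex_coe e).symm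
        rw [he, hGD K q t 1 k N ρ (fun i => e i), (hKD K q t hq k).1 N _ hk, coeff_zero,
          coeff_zero]
      · rw [map_zero, map_zero, kf_dop_zero]
      · intro x y hx hy
        rw [map_add, map_add, d1, hx, hy, add_zero]
      · intro a x hx
        rw [kf_ptm_C, kf_ev_C, d2, hx, mul_zero]
    exact this _ hm
  · intro N cs hd
    obtain ⟨hm, hs⟩ := hTQ K q t hq (cs.headD 0) cs (kf_head hd)
    generalize cs.headD 0 = k at hm hs
    have : ∀ x ∈ spg q k (rowl k cs), (ev K N (ptm t x)).IsHomogeneous cs.sum := by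
      apply kf_ind
      · intro ρ hρ
        rw [kf_prod hG q t hq, ← hs, ← hρ]
        exact IsHomogeneous.prod univ _ _ (fun i _ => kf_gg_hom q t N (ρ i))
      · rw [map_zero, map_zero]
        exact isHomogeneous_zero _ _ _
      · intro x y hx hy
        rw [map_add, map_add]
        exact hx.add hy
      · intro a x hx
        rw [kf_ptm_C, kf_ev_C]
        have := (isHomogeneous_C (Fin N) a).mul hx
        rwa [zero_add] at this
    intro γ hγ
    have h2 := this _ hm hγ
    have h3 : Finsupp.weight 1 (ex γ) = (ex γ).degree := by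
      rw [Finsupp.degree_eq_weight_one]
      rfl
    rw [h3, Finsupp.degree_eq_sum] at h2
    exact h2

end Pool.Agent.Helper73.HL
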