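import Pool.Agent.Helper7.HL.Stmts

/-!
# Row PSI: the modified complete functions
-/

namespace Pool.Agent.Helper73.HL

open Finset MvPolynomial
open Pool.Agent.Helper7.HL
open Pool.Agent.Helper32.HG

/-- coefficients of `gw` -/
theorem psi_coeff_gw {S : Type} [CommRing S] (c : ℕ → S) (N m : ℕ) (d : Fin N → ℕ) :
    coeff (ex d) (gw c N m) = if ∑ i, d i = m then ∏ i, c (d i) else 0 := by
  unfold gw
  rw [coeff_sum]
  simp only [coeff_monomial]
  by_cases h : ∑ i, d i = m
  · rw [if_pos h, sum_eq_single d]
    · rw [if_pos rfl]
    · intro e _ he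
      rw [if_neg]
      intro h'
      apply he
      funext i
      have := DFunLike.congr_fun h' i
      simpa [ex_apply] using this
    · intro h'
      exfalso
      apply h'
      rw [mem_piAntidiag]
      exact ⟨h, fun _ _ => mem_univ _⟩
  · rw [if_neg h]
    apply sum_eq_zero
    intro e he
    rw [if_neg]
    intro h'
    apply h
    have h2 : e = d := by
      funext i
      have := DFunLike.congr_fun h' i
      simpa [ex_apply] using this
    rw [← h2]
    rw [mem_piAntidiag] at he
    exact he.1

theorem psi_ex_single {N : ℕ} (d : Fin N → ℕ) (v : Fin N) (a : ℕ) (h : a ≤ d v) :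
    ex d - Finsupp.single v a = ex (Function.update d v (d v - a)) := by
  ext i
  rw [Finsupp.tsub_apply, ex_apply, ex_apply]
  by_cases hi : i = v
  · subst hi
    rw [Finsupp.single_eq_same, Function.update_self]
  · rw [Finsupp.single_eq_of_ne hi, Function.update_of_ne hi, Nat.sub_zero]

theorem psi_coeff_X_pow_mul {S : Type} [CommRing S] {N : ℕ} (v : Fin N) (a : ℕ)
    (f : MvPolynomial (Fin N) S) (d : Fin N → ℕ) :
    coeff (ex d) (X v ^ a * f) =
      if a ≤ d v then coeff (ex (Function.update d v (d v - a))) f else 0 := by
  rw [X_pow_eq_monomial, coeff_monomial_mul', one_mul]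
  by_cases h : a ≤ d v
  · rw [if_pos h, if_pos, psi_ex_single d v a h]
    rw [Finsupp.single_le_iff, ex_apply]
    exact h
  · rw [if_neg h, if_neg]
    rw [Finsupp.single_le_iff, ex_apply]
    exact h

theorem psi_gg_rec {K : Type} [Field K] (h0 : ST_PH) (q t : K) (hq : GQ q) (N m : ℕ) :
    (m : MvPolynomial (Fin N) K) * gg q t N m =
      ∑ j ∈ range m, C (om q t (j + 1)) * (∑ v : Fin N, X v ^ (j + 1)) *
        gg q t N (m - (j + 1)) := by
  have hph := h0 K q t hq
  ext e
  have he : e = ex (fun i => e i) := (ex_coe e).symm
  rw [he]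
  generalize (fun i => e i) = d
  have h3 : coeff (ex d) ((m : MvPolynomial (Fin N) K) * gg q t N m) =
      (m : K) * coeff (ex d) (gg q t N m) := by
    rw [← map_natCast (C : K →+* MvPolynomial (Fin N) K), coeff_C_mul]
  rw [h3, coeff_sum]
  have h4 : ∀ j ∈ range m, coeff (ex d) (C (om q t (j + 1)) * (∑ v : Fin N, X v ^ (j + 1)) *
        gg q t N (m - (j + 1))) =
      ∑ v : Fin N, if ∑ i, d i = m then (if j + 1 ≤ d v then
        om q t (j + 1) * ph q t (d v - (j + 1)) * ∏ i ∈ univ.erase v, ph q t (d i) else 0)
        else 0 := by
    intro j hj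
    rw [mem_range] at hj
    rw [mul_assoc, coeff_C_mul, sum_mul, coeff_sum, mul_sum]
    apply sum_congr rfl
    intro v _
    rw [psi_coeff_X_pow_mul]
    by_cases h : j + 1 ≤ d v
    · rw [if_pos h, if_pos h]
      unfold gg
      rw [psi_coeff_gw]
      have hs : ∑ i, Function.update d v (d v - (j + 1)) i + (j + 1) = ∑ i, d i := by
        rw [← add_sum_erase univ _ (mem_univ v), ← add_sum_erase univ d (mem_univ v),
          Function.update_self]
        have : ∑ x ∈ univ.erase v, Function.update d v (d v - (j + 1)) x =
            ∑ x ∈ univ.erase v, d x := by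
          apply sum_congr rfl
          intro x hx
          rw [Function.update_of_ne (ne_of_mem_erase hx)]
        rw [this]
        omega
      by_cases hm : ∑ i, d i = m
      · rw [if_pos hm, if_pos (by omega), ← mul_prod_erase univ _ (mem_univ v),
          Function.update_self]
        have : ∏ x ∈ univ.erase v, ph q t (Function.update d v (d v - (j + 1)) x) =
            ∏ x ∈ univ.erase v, ph q t (d x) := by
          apply prod_congr rfl
          intro x hx
          rw [Function.update_of_ne (ne_of_mem_erase hx)]
        rw [this]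
        ring
      · rw [if_neg hm, if_neg (by omega), mul_zero]
    · rw [if_neg h, if_neg h, mul_zero]
      simp
  rw [sum_congr rfl h4, sum_comm]
  unfold gg
  rw [psi_coeff_gw]
  by_cases hm : ∑ i, d i = m
  · simp only [if_pos hm]
    have h5 : ∀ v : Fin N, ∑ j ∈ range m, (if j + 1 ≤ d v then
        om q t (j + 1) * ph q t (d v - (j + 1)) * ∏ i ∈ univ.erase v, ph q t (d i) else 0) =
        (d v : K) * ∏ i, ph q t (d i) := by
      intro v
      have hv : d v ≤ m := by
        rw [← hm]
        exact single_le_sum (fun i _ => Nat.zero_le (d i)) (mem_univ v)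
      rw [← sum_filter]
      have hf : (range m).filter (fun j => j + 1 ≤ d v) = range (d v) := by
        ext a
        rw [mem_filter, mem_range, mem_range]
        omega
      rw [hf, ← sum_mul, ← hph, ← mul_prod_erase univ (fun i => ph q t (d i)) (mem_univ v),
        mul_assoc]
    rw [sum_congr rfl fun v _ => h5 v, ← sum_mul]
    congr 1
    rw [← hm]
    push_cast
    rfl
  · simp [hm]

theorem st_PSI (h0 : ST_PH) : ST_PSI := by
  intro K _ _ q t hqt n m hmn
  have hq : GQ q := by
    intro a ha
    have := hqt a 0 (by omega)
    simpa using this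
  have hom : ∀ j, 0 < j → om q t j ≠ 0 := by
    intro j hj
    unfold om
    apply div_ne_zero
    · have := hqt 0 j (by omega)
      simpa using this
    · exact hq j hj
  induction m using Nat.strong_induction_on with
  | _ m ih =>
  by_cases hm0 : m = 0
  · subst hm0
    rw [gh_zero, map_one]
    ext e
    have he : e = ex (fun i => e i) := (ex_coe e).symm
    rw [he]
    generalize (fun i => e i) = d
    unfold gg
    rw [psi_coeff_gw, coeff_one]
    by_cases h : ∑ i, d i = 0
    · rw [if_pos h]
      have hd : ∀ i, d i = 0 := fun i => by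
        have := single_le_sum (f := d) (fun i _ => Nat.zero_le (d i)) (mem_univ i)
        omega
      rw [if_pos]
      · symm
        apply prod_eq_one
        intro i _
        rw [hd i]
        unfold ph
        simp
      · ext i
        rw [ex_apply, hd i]
        rfl
    · rw [if_neg h, if_neg]
      intro h'
      apply h
      apply sum_eq_zero
      intro i _
      have := DFunLike.congr_fun h' i
      rw [ex_apply] at this
      simpa using this.symm
  · have hk0 : (m : MvPolynomial (Fin n) K) ≠ 0 := Nat.cast_ne_zero.2 hm0
    apply mul_left_cancel₀ hk0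
    have e1 : (m : MvPolynomial (Fin n) K) * Psi n K (gh n (om q t) m) =
        Psi n K ((m : MvPolynomial (Fin n) K) * gh n (om q t) m) := by
      rw [map_mul, map_natCast]
    rw [e1, gh_rec hom, map_sum, psi_gg_rec h0 q t hq]
    have e3 : ∀ i : Fin n, Psi n K (C (om q t (i.val + 1)) * X i *
        (if i.val + 1 ≤ m then gh n (om q t) (m - (i.val + 1)) else 0)) =
        (fun a : ℕ => if a < m then C (om q t (a + 1)) * (∑ v : Fin n, X v ^ (a + 1)) *
          gg q t n (m - (a + 1)) else 0) i.val := by
      intro i
      dsimp only
      by_cases h : i.val + 1 ≤ m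
      · rw [if_pos h, if_pos (by omega), map_mul, map_mul, ih _ (by omega) (by omega)]
        congr 2
        · unfold Psi
          rw [aeval_C, algebraMap_eq]
        · unfold Psi
          rw [aeval_X]
      · rw [if_neg h, if_neg (by omega), mul_zero, map_zero]
    rw [sum_congr rfl fun i _ => e3 i, Fin.sum_univ_eq_sum_range (fun a : ℕ =>
      if a < m then C (om q t (a + 1)) * (∑ v : Fin n, X v ^ (a + 1)) *
          gg q t n (m - (a + 1)) else 0) n]
    rw [← sum_filter]
    apply sum_congr
    · ext a
      rw [mem_filter, mem_range, mem_range]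
      omega
    · intro a _
      rfl

end Pool.Agent.Helper73.HL
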